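import Pool.Agent.helper45.BR.Spec
import Pool.Agent.helper54.CR.Landau

set_option autoImplicit false

open Complex Metric Set Filter Topology MeasureTheory MPS Pool.Agent.helper98.ILF
  Pool.Agent.helper16.Multibrot

noncomputable section

namespace BR

theorem CRI (hMLN : MLN_stmt) (hMOT : MOT_stmt) (hMOD : MOD_stmt) (hUNQ : UNQ_stmt) :
    CRI_stmt := by
  intro n N c r hn hr hball z a b ha hb hz hza hzb
  simp only [Set.mem_ofPred_eq] at hz hza hzb
  have hcb : c ∈ ball c r := mem_ball_self hr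
  have hcm : c ∈ multibrot n := hball hcb
  have hM : (0 : ℝ) ≤ 4000 / r := by positivity
  by_cases hab : a = b
  · subst hab
    rw [sub_self, norm_zero]
    positivity
  obtain ⟨w₀, hd₀, hw₀, he₀⟩ := hMOT n N c r hn hr hball z hz
  obtain ⟨w₁, hd₁, hw₁, he₁⟩ := hMOT n N c r hn hr hball (z + a) hza
  obtain ⟨w₂, hd₂, hw₂, he₂⟩ := hMOT n N c r hn hr hball (z + b) hzb
  have h10 : ∀ c' ∈ ball c r, w₁ c' ≠ w₀ c' := by
    refine hUNQ n N c r w₁ w₀ _ _ hn hr hball hd₁ hd₀ hza hz he₁ he₀ ?_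
    rw [hw₁, hw₀]
    intro h
    exact ha (by simpa using h)
  have h20 : ∀ c' ∈ ball c r, w₂ c' ≠ w₀ c' := by
    refine hUNQ n N c r w₂ w₀ _ _ hn hr hball hd₂ hd₀ hzb hz he₂ he₀ ?_
    rw [hw₂, hw₀]
    intro h
    exact hb (by simpa using h)
  have h12 : ∀ c' ∈ ball c r, w₁ c' ≠ w₂ c' := by
    refine hUNQ n N c r w₁ w₂ _ _ hn hr hball hd₁ hd₂ hza hzb he₁ he₂ ?_
    rw [hw₁, hw₂]
    intro h
    exact hab (by simpa using h)
  have hD₀ : deriv w₀ c = SN n c N z := by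
    have h := hMOD n N c r w₀ hn hr hd₀ (by rw [hw₀]; exact he₀)
      (by rw [hw₀]; exact hMLN n N c z hn hcm hz N le_rfl)
    rwa [hw₀] at h
  have hD₁ : deriv w₁ c = SN n c N (z + a) := by
    have h := hMOD n N c r w₁ hn hr hd₁ (by rw [hw₁]; exact he₁)
      (by rw [hw₁]; exact hMLN n N c (z + a) hn hcm hza N le_rfl)
    rwa [hw₁] at h
  have hD₂ : deriv w₂ c = SN n c N (z + b) := by
    have h := hMOD n N c r w₂ hn hr hd₂ (by rw [hw₂]; exact he₂)
      (by rw [hw₂]; exact hMLN n N c (z + b) hn hcm hzb N le_rfl)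
    rwa [hw₂] at h
  have hnh : ball c r ∈ 𝓝 c := isOpen_ball.mem_nhds hcb
  have ht₀ : HasDerivAt w₀ (SN n c N z) c := by
    rw [← hD₀]; exact (hd₀.differentiableAt hnh).hasDerivAt
  have ht₁ : HasDerivAt w₁ (SN n c N (z + a)) c := by
    rw [← hD₁]; exact (hd₁.differentiableAt hnh).hasDerivAt
  have ht₂ : HasDerivAt w₂ (SN n c N (z + b)) c := by
    rw [← hD₂]; exact (hd₂.differentiableAt hnh).hasDerivAt
  set F : ℂ → ℂ := fun c' => (w₁ c' - w₀ c') / (w₂ c' - w₀ c') with hF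
  have hFd : DifferentiableOn ℂ F (ball c r) :=
    (hd₁.sub hd₀).div (hd₂.sub hd₀) (fun c' hc' => sub_ne_zero.2 (h20 c' hc'))
  have hF0 : ∀ c' ∈ ball c r, F c' ≠ 0 := fun c' hc' =>
    div_ne_zero (sub_ne_zero.2 (h10 c' hc')) (sub_ne_zero.2 (h20 c' hc'))
  have hF1 : ∀ c' ∈ ball c r, F c' ≠ 1 := by
    intro c' hc' h
    rw [hF] at h
    simp only at h
    rw [div_eq_one_iff_eq (sub_ne_zero.2 (h20 c' hc'))] at h
    exact h12 c' hc' (sub_left_injective h)
  have hFc : F c = a / b := by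
    simp only [hF, hw₀, hw₁, hw₂]
    ring
  have hFD : deriv F c = ((SN n c N (z + a) - SN n c N z) * b -
      a * (SN n c N (z + b) - SN n c N z)) / b ^ 2 := by
    have h := ((ht₁.sub ht₀).div (ht₂.sub ht₀) (sub_ne_zero.2 (h20 c hcb))).deriv
    have e1 : w₁ c - w₀ c = a := by rw [hw₁, hw₀]; ring
    have e2 : w₂ c - w₀ c = b := by rw [hw₂, hw₀]; ring
    simp only [Pi.sub_apply] at h
    rw [e1, e2] at h
    exact h
  have hL := Pool.Agent.helper54.CR.landau hr hFd hF0 hF1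
  rw [hFD, hFc, norm_div a b] at hL
  have e3 : ((SN n c N (z + a) - SN n c N z) * b -
      a * (SN n c N (z + b) - SN n c N z)) / b ^ 2 / (a / b) =
      (SN n c N (z + a) - SN n c N z) / a - (SN n c N (z + b) - SN n c N z) / b := by
    field_simp
  rw [e3] at hL
  exact hL

end BR
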