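import Pool.Agent.helper45.BR.Spec

set_option autoImplicit false

open Complex Metric Set Filter Topology MeasureTheory MPS Pool.Agent.helper98.ILF
  Pool.Agent.helper16.Multibrot

noncomputable section

namespace BR

lemma VFX_it {g : ℂ → ℂ} {U : Set ℂ} (hd : DifferentiableOn ℂ g U) (hm : MapsTo g U U) (k : ℕ) :
    DifferentiableOn ℂ (g^[k]) U ∧ MapsTo (g^[k]) U U := by
  induction k with
  | zero => exact ⟨by simpa using differentiableOn_id, fun z hz => by simpa using hz⟩
  | succ k ih =>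
    refine ⟨?_, hm.iterate (k + 1)⟩
    rw [Function.iterate_succ']
    exact hd.comp ih.1 ih.2

theorem VFX (hSEQ : SEQ_stmt) (hCPB : CPB_stmt) (hTMO : V3.TMO_stmt) (hTHU : V3.THU_stmt) :
    VFX_stmt := by
  intro g U hRD
  obtain ⟨m, hm, hmL⟩ := hSEQ g U hRD
  obtain ⟨x, hx⟩ := hRD.co.nonempty
  obtain ⟨ρ, hρ, hρU⟩ := Metric.nhds_basis_closedBall.mem_iff.1 (hRD.op.mem_nhds hx)
  have hit := fun k => VFX_it hRD.di hRD.mt k
  set φ : ℕ → ℂ → ℂ := fun j z => g^[m j] z - z with hφ
  have hφd : ∀ j, DifferentiableOn ℂ (φ j) U := fun j => (hit (m j)).1.sub differentiableOn_id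
  have hmax : ∀ j, ∃ p ∈ closedBall x ρ, ∀ w ∈ closedBall x ρ, ‖φ j w‖ ≤ ‖φ j p‖ := by
    intro j
    obtain ⟨p, hp, hpm⟩ := (isCompact_closedBall x ρ).exists_isMaxOn
      ⟨x, mem_closedBall_self hρ.le⟩ (((hφd j).continuousOn.mono hρU).norm)
    exact ⟨p, hp, fun w hw => hpm hw⟩
  choose p hp hpm using hmax
  have hpos : ∀ᶠ j in atTop, 0 < m j := hm.eventually_gt_atTop 0
  have hs : ∀ j, 0 < m j → 0 < ‖φ j (p j)‖ := fun j hj =>
    norm_pos_iff.2 (sub_ne_zero.2 (hRD.np (m j) hj _ (hρU (hp j))))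
  set X : ℕ → ℂ → ℂ := fun j z => φ j z / (‖φ j (p j)‖ : ℂ) with hX
  have hXd : ∀ j, DifferentiableOn ℂ (X j) U := fun j => (hφd j).div_const _
  have hXb : ∀ L ⊆ U, IsCompact L → ∃ C : ℝ, ∀ᶠ j in atTop, ∀ z ∈ L, ‖X j z‖ ≤ C := by
    intro L hLU hL
    obtain ⟨C, δ, hδ, L'', hL''U, hL'', h⟩ := hCPB g U hRD x ρ hρ hρU L hLU hL
    refine ⟨C, ?_⟩
    filter_upwards [hpos, hmL L'' hL''U hL'' δ hδ] with j hj hjL z hz
    have h1 := h (m j) hjL ‖φ j (p j)‖ (norm_nonneg _) (fun w hw => hpm j w hw) z hz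
    simp only [hX]
    rw [norm_div, Complex.norm_real, norm_norm]
    exact (div_le_iff₀ (hs j hj)).2 h1
  set u : Ultrafilter ℕ := Ultrafilter.of atTop with hu
  have hule : (u : Filter ℕ) ≤ atTop := Ultrafilter.of_le _
  obtain ⟨Y, hYd, hYX⟩ := hTMO u X U hRD.op (by
    intro y hy
    obtain ⟨r, hr, hrU⟩ := Metric.nhds_basis_closedBall.mem_iff.1 (hRD.op.mem_nhds hy)
    obtain ⟨C, hC⟩ := hXb _ hrU (isCompact_closedBall y r)
    refine ⟨r, hr, C, ?_⟩
    filter_upwards [hule hC] with j hj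
    exact ⟨(hXd j).mono (ball_subset_closedBall.trans hrU),
      fun z hz => hj z (ball_subset_closedBall hz)⟩)
  have hYpt : ∀ z ∈ U, Tendsto (fun j => X j z) u (𝓝 (Y z)) := fun z hz => hYX.tendsto_at hz
  -- `Y` is not identically zero
  have hY0 : ∃ q ∈ U, Y q ≠ 0 := by
    by_contra hcon
    push Not at hcon
    have h1 : TendstoUniformlyOn X Y u (closedBall x ρ) :=
      (tendstoLocallyUniformlyOn_iff_tendstoUniformlyOn_of_compact
        (isCompact_closedBall x ρ)).1 (hYX.mono hρU)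
    have h2 := Metric.tendstoUniformlyOn_iff.1 h1 1 one_pos
    have h3 : ∀ᶠ j in (u : Filter ℕ), False := by
      filter_upwards [h2, hule hpos] with j hj hj0
      have h4 := hj (p j) (hp j)
      rw [hcon _ (hρU (hp j)), dist_zero_left] at h4
      have h5 : ‖X j (p j)‖ = 1 := by
        simp only [hX]
        rw [norm_div, Complex.norm_real, norm_norm]
        exact div_self (hs j hj0).ne'
      linarith
    simpa using h3.exists
  obtain ⟨q, hqU, hq⟩ := hY0
  have hYan : AnalyticOnNhd ℂ Y U := hYd.analyticOnNhd hRD.op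
  refine ⟨Y, hYd, ?_, ?_⟩
  · intro z₀ hz₀ hz0
    obtain ⟨r, hr, hrU⟩ := Metric.nhds_basis_ball.mem_iff.1 (hRD.op.mem_nhds hz₀)
    have hne : ∃ y ∈ ball z₀ r, Y y ≠ 0 := by
      by_contra hcon
      push Not at hcon
      have h1 : Y =ᶠ[𝓝 z₀] 0 := by
        filter_upwards [ball_mem_nhds z₀ hr] with y hy
        exact hcon y hy
      exact hq (hYan.eqOn_zero_of_preconnected_of_eventuallyEq_zero
        hRD.co.isPreconnected hz₀ h1 hqU)
    have h1 := hTHU u X Y z₀ r hr (Eventually.of_forall fun j => (hXd j).mono hrU)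
      (hYX.mono hrU) hz0 hne r hr
    obtain ⟨j, ⟨z, hz, hzX⟩, hj⟩ := (h1.and (hule hpos)).exists
    simp only [hX] at hzX
    rcases div_eq_zero_iff.1 hzX with h2 | h2
    · exact hRD.np (m j) hj z (hrU hz) (sub_eq_zero.1 h2)
    · rw [Complex.ofReal_eq_zero] at h2
      exact (hs j hj).ne' h2
  · intro z hz
    have h1 : Tendsto (fun j => X j (g z)) u (𝓝 (Y (g z))) := hYpt _ (hRD.mt hz)
    -- the iterates tend to the identity at `z`
    have h2 : Tendsto (fun j => g^[m j] z) u (𝓝[≠] z) := by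
      rw [tendsto_nhdsWithin_iff]
      constructor
      · refine Tendsto.mono_left ?_ hule
        rw [Metric.tendsto_nhds]
        intro ε hε
        filter_upwards [hmL {z} (singleton_subset_iff.2 hz) isCompact_singleton (ε / 2)
          (half_pos hε)] with j hj
        rw [dist_eq_norm]
        have := hj z (mem_singleton z)
        linarith
      · filter_upwards [hule hpos] with j hj
        exact hRD.np (m j) hj z hz
    have h3 : HasDerivAt g (deriv g z) z :=
      (hRD.di.differentiableAt (hRD.op.mem_nhds hz)).hasDerivAt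
    have h4 : Tendsto (fun j => slope g z (g^[m j] z)) u (𝓝 (deriv g z)) :=
      h3.tendsto_slope.comp h2
    have h5 : Tendsto (fun j => slope g z (g^[m j] z) * X j z) u (𝓝 (deriv g z * Y z)) :=
      h4.mul (hYpt z hz)
    have h6 : (fun j => slope g z (g^[m j] z) * X j z) =ᶠ[(u : Filter ℕ)]
        fun j => X j (g z) := by
      filter_upwards [hule hpos] with j hj
      have hne : g^[m j] z - z ≠ 0 := sub_ne_zero.2 (hRD.np (m j) hj z hz)
      simp only [hX, hφ]
      rw [slope_def_field, ← Function.iterate_succ_apply, Function.iterate_succ_apply']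
      rw [div_mul_div_comm, mul_comm (g^[m j] z - z) _, mul_div_mul_right _ _ hne]
    exact tendsto_nhds_unique h1 (h5.congr' h6)

end BR
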